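import Mathlib
import Pool.Agent.Lib_MP_94ab8c.Defs
import Pool.Agent.Lib_MP_94ab8c.TwoOne
import Pool.Agent.Lib_MP_94ab8c.OneH
import Pool.Agent.Lib_MP_94ab8c.ShapeQ
import Pool.Agent.Lib_MP_94ab8c.Bridge
import Pool.Agent.Lib_MP_94ab8c.ThreeFam
import Pool.Agent.Lib_MP_94ab8c.FourFam
import Pool.Agent.Lib_CN94.Final

/-!
# MP_94ab8c_nt, Q1: conditions (1) and (2) are equivalent for all discriminants

`(2) → (1)`, `(1) → h = 1` and the reduction of the converse to two explicit families of
discriminants of class number one are in `Lib_MP_94ab8c`.  The directory `Lib_CN94` shows that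
the two families contain no discriminant with condition (1): for these fields there is a short
explicit unimodular path from `1` to a totally positive unit, so that the values at `0` of the
zeta functions of the principal class twisted by odd characters are explicit finite sums; for class
number one they are products of Bernoulli numbers, and for characters of small modulus `q` with
values in a field with `r` elements for which the first Bernoulli number vanishes this gives
congruences modulo `r` for the parameters modulo `q r`.  Condition (1) makes the small primes inert,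
and a finite computation (done by the kernel) shows that the congruences for
`q ∣ 720720`, `r = 5, 7, 13` contradict each other.
-/

namespace Pool.Agent.Results.MP_94ab8c_nt.Equivalence

open QP

/-- the three excluded values -/
theorem excluded {q1 q2 : ℕ} (h : Setting q1 q2)
    (hD : q1 * q2 = 133 ∨ q1 * q2 = 341 ∨ q1 * q2 = 917) : ¬ CondInt q1 q2 := by
  intro hc
  have key : ∀ a b : ℕ, a.Prime → b.Prime → a < b → q1 * q2 = a * b → q1 = a ∧ q2 = b := by
    intro a b ha hb hab heq
    have h1 : q1 ∣ a * b := ⟨q2, heq.symm⟩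
    rcases h.prime1.dvd_mul.1 h1 with h2 | h2
    · have h3 := (Nat.prime_dvd_prime_iff_eq h.prime1 ha).1 h2
      subst h3
      exact ⟨rfl, Nat.eq_of_mul_eq_mul_left h.prime1.pos heq⟩
    · exfalso
      have h3 := (Nat.prime_dvd_prime_iff_eq h.prime1 hb).1 h2
      subst h3
      have h4 : q2 = a := Nat.eq_of_mul_eq_mul_left h.prime1.pos (by rw [heq, mul_comm])
      have := h.lt
      omega
  rcases hD with hD | hD | hD
  · obtain ⟨rfl, rfl⟩ := key 7 19 (by norm_num) (by norm_num) (by norm_num) (by rw [hD])
    obtain ⟨n, hn, hn2⟩ := hc 5 (by norm_num) (by norm_num) (by norm_num)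
    norm_num at hn
    have : n = 39 := by omega
    rw [this] at hn2
    norm_num at hn2
  · obtain ⟨rfl, rfl⟩ := key 11 31 (by norm_num) (by norm_num) (by norm_num) (by rw [hD])
    obtain ⟨n, hn, hn2⟩ := hc 9 (by norm_num) (by norm_num) (by norm_num)
    norm_num at hn
    have : n = 215 := by omega
    rw [this] at hn2
    norm_num at hn2
  · obtain ⟨rfl, rfl⟩ := key 7 131 (by norm_num) (by norm_num) (by norm_num) (by rw [hD])
    obtain ⟨n, hn, hn2⟩ := hc 15 (by norm_num) (by norm_num) (by norm_num)
    norm_num at hn
    have : n = 361 := by omega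
    rw [this] at hn2
    norm_num at hn2

theorem main {q1 q2 : ℕ} (h : Setting q1 q2) {e : ℤ} (he : 4 * e + 1 = q1 * q2) :
    CondInt q1 q2 ↔ IsPrincipalIdealRing (R e) ∧ Shape q1 q2 := by
  constructor
  · intro hc
    have hP : IsPrincipalIdealRing (R e) := one_pid h he hc
    refine ⟨hP, ?_⟩
    rcases one_shape h hc with h1 | h1 | ⟨c, hc0, hc4, hcq, hκ⟩
    · exact h1
    · exfalso
      refine CN94.family9_false h he hc ⟨⟨?_, ?_, ?_⟩, h1⟩
      · intro hD; exact excluded h (Or.inl hD) hc
      · intro hD; exact excluded h (Or.inr (Or.inl hD)) hc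
      · intro hD; exact excluded h (Or.inr (Or.inr hD)) hc
    · exfalso
      refine CN94.family4_false h he hc ⟨c, hc0, hc4, hcq, hκ, ?_, ?_⟩
      · intro d f hd hd4 hdf
        by_contra hcon
        exact four_compl h hc (Or.inl rfl) hc0 hc4 hcq hκ hd hd4 (by rw [← hdf]; ring)
          (by linarith)
      · intro d f hd hd4 hdf
        by_contra hcon
        exact four_compl h hc (Or.inr rfl) hc0 hc4 hcq hκ hd hd4 (by rw [← hdf]; ring)
          (by linarith)
  · rintro ⟨_, h1⟩
    exact two_one h he h1

/-- **Main theorem.** Let `q1 < q2` be primes congruent to `3` modulo `4` with `Δ = q1 q2`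
congruent to `5` modulo `8`, and let `K = ℚ(√Δ)`. Then the conditions (1) and (2) are equivalent. -/
theorem result (q1 q2 : ℕ) (h : Setting q1 q2) (K : Type) [Field K] [NumberField K]
    (hK : Module.finrank ℚ K = 2) (α : K) (hα : α ^ 2 = (q1 : K) * q2) :
    Cond1 q1 q2 ↔ Cond2 q1 q2 K := by
  obtain ⟨e, he⟩ : ∃ e : ℤ, 4 * e + 1 = (q1 : ℤ) * q2 := by
    have hm8 : ((q1 : ℤ) * q2) % 8 = 5 := by exact_mod_cast h.mod8
    exact ⟨((q1 : ℤ) * q2) / 4, by omega⟩
  rw [cond1_iff h, main h he, Cond2, classNumber_iff h he hK α hα]

end Pool.Agent.Results.MP_94ab8c_nt.Equivalence
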